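import Pool.Agent.T3h36.PP.All
import Pool.Agent.T3h36.Stm
import Pool.Agent.T3h36.T_NUM

/-!
# Sum-of-squares proofs of Turán's bound for `K_3(5)` need order `n^c`

Turán's conjecture: a 3-graph `G` on `2n` vertices without `K_3(5)` has at most `n² (n - 1)` edges. A
sum-of-squares proof of `|G| ≤ M` (at this `n`) is an identity

  `M - |G| = p_1(G)² + … + p_r(G)²`   for all `K_3(5)`-free 3-graphs `G` on `2n` vertices,

where the `p_i` are real polynomials in the indicator variables of the triples; its order is the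
largest number of vertices involved in a monomial of the `p_i`. We show: if the order is at most `d`
and `2n ≥ (6d)^73`, then `M ≥ n² (n - 1) + n³ / (6d)^73`. So a sum-of-squares proof of Turán's bound for
`2n` vertices has order more than `(2n)^(1/73) / 6` (and degree more than a third of this), and no
sum-of-squares proof of bounded order gives even the bound `(1 + o(1)) n³`. The polynomials are
arbitrary: they need not be symmetric, they may depend on `n`, the number of squares and the size of
the coefficients are not bounded, and the identity is only required on `K_3(5)`-free 3-graphs. This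
covers the Lasserre hierarchy: a function of the triples inside a set of at most `d` vertices which
is nonnegative on `K_3(5)`-free 3-graphs is the square of such a function, as is its product with a
square, and a polynomial of degree `e` has order at most `3e`.

The analytic part is `main_all` of `Pool/Agent/T3h36/PP/All.lean` (for `K_κ^3`, `κ ≥ 4`; here `κ = 5`): the
cyclic construction with four parts (the non-edges are the triples inside a part and those with two
vertices in part `i` and one in part `i + 1`; density `3/4`, no `K_3(5)`) is changed on a small special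
set `X` in part `0` and a small special set `Y` in part `1`: the pairs inside `X` are joined to `Y` and to
the rest of part `0`, but not to part `2`. The edge density becomes `3/4 + 3 x² (y - x)` (`x`, `y` the weights
of `X`, `Y`), while only samples with two vertices in `X` and two in `Y` can contain a `K_3(5)`; a form of
Markov's inequality for coefficients bounds their contribution by `(3d)^C x² y²`.

The proof is due to helper36; the files of the first stage (`Pool/Agent/T3h36/T_*.lean`) are by
helper5, helper21, helper32, helper33, helper36, helper42, helper47, helper50, helper57, helper60,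
helper68 and helper84, those of the second stage (`PP/T_*.lean`) by helper36 (`T_GRAPH`), helper50
(`T_LAG1`), helper92 (`T_LAG`, `T_EXTR`), helper9 (`T_CROSS`), helper53 (`T_BADS`), helper96 (`T_SPLIT`,
`T_CAN`), helper84 (`T_PAIR`), helper4 (`T_CLIQ`, `T_DENS`), helper34 (`T_SAMP`, `T_EDGE`, `T_LOCJ`), helper85
(`T_GRP`), helper69 (`T_GAP`), helper32 (`T_LOCR`, `T_LBP`, `T_MAINP`).
-/

set_option autoImplicit false
open Finset
open Pool.Agent.T2h36 Pool.Agent.T2h36.Uni Pool.Agent.T3h36

namespace Pool.Agent.Results.MP_555f9b_co.SumOfSquaresFive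

/-- a polynomial all whose monomials involve at most `d` vertices is a function of order `d` -/
theorem poly_order (d : ℕ) (V : Type) [Fintype V] [DecidableEq V] (hd : d ≤ Fintype.card V)
    (c : Finset (Finset V) → ℝ) : ∃ q : (Fin d ↪ V) → Finset (Finset (Fin d)) → ℝ,
      ∀ H : Finset (Finset V), poly d c H = ∑ θ : Fin d ↪ V, q θ (pull θ H) := by
  classical
  have hθ : ∀ B : Finset (Finset V), ∃ θ : Fin d ↪ V, (B.biUnion id).card ≤ d →
      ∀ v ∈ B.biUnion id, ∃ a, θ a = v := by
    intro B
    by_cases hB : (B.biUnion id).card ≤ d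
    · obtain ⟨S, hS1, hS2⟩ := Finset.exists_superset_card_eq hB hd
      refine ⟨(S.equivFinOfCardEq hS2).symm.toEmbedding.trans (Function.Embedding.subtype _),
        fun _ v hv => ⟨S.equivFinOfCardEq hS2 ⟨v, hS1 hv⟩, ?_⟩⟩
      simp
    · obtain ⟨θ⟩ := Function.Embedding.nonempty_of_card_le (α := Fin d) (β := V) (by simpa using hd)
      exact ⟨θ, fun h => absurd h hB⟩
  choose θ hθ using hθ
  obtain ⟨A, hA⟩ : ∃ A : Finset (Finset (Finset V)), A = univ.filter
    (fun B : Finset (Finset V) => (B.biUnion id).card ≤ d) := ⟨_, rfl⟩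
  refine ⟨fun η E => ∑ B ∈ A.filter (fun B => θ B = η),
    if (∀ e ∈ B, (univ.filter fun a => η a ∈ e) ∈ E) then c B else 0, ?_⟩
  intro H
  have h1 : ∀ B ∈ A, (B ⊆ H ↔
      ∀ e ∈ B, (univ.filter fun a => θ B a ∈ e) ∈ pull (θ B) H) := by
    intro B hB
    rw [hA, Finset.mem_filter] at hB
    have h2 : ∀ e ∈ B, (univ.filter fun a => θ B a ∈ e).map (θ B) = e := by
      intro e he
      ext v
      simp only [Finset.mem_map, Finset.mem_filter, Finset.mem_univ, true_and]
      constructor
      · rintro ⟨a, ha, rfl⟩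
        exact ha
      · intro hv
        obtain ⟨a, ha⟩ := hθ B hB.2 v (Finset.mem_biUnion.2 ⟨e, he, hv⟩)
        exact ⟨a, by rw [ha]; exact hv, ha⟩
    constructor
    · intro h e he
      rw [mem_pull, h2 e he]
      exact h he
    · intro h e he
      have h4 := h e he
      rwa [mem_pull, h2 e he] at h4
  have h5 : poly d c H = ∑ B ∈ A,
      if (∀ e ∈ B, (univ.filter fun a => θ B a ∈ e) ∈ pull (θ B) H) then c B else 0 := by
    unfold poly
    rw [← hA]
    refine Finset.sum_congr rfl fun B hB => ?_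
    by_cases h : B ⊆ H
    · rw [if_pos h, if_pos ((h1 B hB).1 h)]
    · rw [if_neg h, if_neg (fun h' => h ((h1 B hB).2 h'))]
  rw [h5, ← Finset.sum_fiberwise A θ]
  refine Finset.sum_congr rfl fun η _ => Finset.sum_congr rfl fun B hB => ?_
  rw [Finset.mem_filter] at hB
  rw [hB.2]

/-- numerical end -/
theorem numeric (X Y m C M : ℝ) (hX : 1 ≤ X) (hY : 36 * X ≤ Y) (hm : 36 * X ≤ 2 * m)
    (hC : C = (4 * m ^ 3 - 6 * m ^ 2 + 2 * m) / 3) (hM : (3 / 4 + 1 / (16 * X)) * C ≤ M) :
    m ^ 2 * (m - 1) + m ^ 3 / Y ≤ M := by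
  have hX0 : 0 < X := by linarith
  have hm18 : 18 ≤ m := by linarith
  have hm0 : 0 < m := by linarith
  have h1 : m ^ 3 / Y ≤ m ^ 3 / (36 * X) :=
    div_le_div_of_nonneg_left (by positivity) (by positivity) hY
  have h2 : m ^ 3 ≤ C := by
    rw [hC]
    nlinarith [mul_pos hm0 hm0, mul_nonneg (mul_nonneg hm0.le hm0.le) (by linarith : (0:ℝ) ≤ m - 18)]
  have h3 : m ^ 3 / (16 * X) ≤ 1 / (16 * X) * C := by
    calc m ^ 3 / (16 * X) = 1 / (16 * X) * m ^ 3 := by ring
      _ ≤ 1 / (16 * X) * C := mul_le_mul_of_nonneg_left h2 (by positivity)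
  have h4 : 3 / 4 * C = m ^ 2 * (m - 1) - m ^ 2 / 2 + m / 2 := by rw [hC]; ring
  have h5 : m ^ 2 / 2 ≤ m ^ 3 / (36 * X) := by
    rw [div_le_div_iff₀ (by norm_num) (by positivity)]
    nlinarith [mul_nonneg (mul_nonneg hm0.le hm0.le) (by linarith : (0:ℝ) ≤ 2 * m - 36 * X)]
  have h6 : m ^ 3 / (36 * X) + m ^ 3 / (36 * X) ≤ m ^ 3 / (16 * X) := by
    rw [← add_div, div_le_div_iff₀ (by positivity) (by positivity)]
    nlinarith [mul_pos (pow_pos hm0 3) hX0]
  have h7 : (3 / 4 + 1 / (16 * X)) * C = 3 / 4 * C + 1 / (16 * X) * C := by ring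
  linarith

/-- **Sum-of-squares proofs of `|G| ≤ n²(n-1)` for `K_3(5)`-free 3-graphs on `2n` vertices have order
more than `(2n)^(1/73)/6`.** If `M - |G| = ∑ i, p_i(G)²` for every `K_3(5)`-free 3-graph `G` on `2n` vertices,
where the `p_i` are polynomials in the indicator variables of the triples, all of whose monomials
involve at most `d` vertices, and if `2n ≥ (6d)^73`, then `M ≥ n²(n-1) + n³/(6d)^73`. -/
theorem result (d n r : ℕ) (hd : 1 ≤ d) (hn : (6 * d) ^ 73 ≤ 2 * n)
    (c : Fin r → Finset (Finset (Fin (2 * n))) → ℝ) (M : ℝ)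
    (h : ∀ G : Finset (Finset (Fin (2 * n))), Is3 G → CliqueFree3 5 G →
      M - (G.card : ℝ) = ∑ i, poly d (c i) G ^ 2) :
    (n : ℝ) ^ 2 * ((n : ℝ) - 1) + (n : ℝ) ^ 3 / (6 * (d : ℝ)) ^ 73 ≤ M := by
  classical
  have h3d : 3 * d ≤ 2 * n := by
    refine le_trans ?_ hn
    calc 3 * d ≤ 6 * d := by omega
      _ = (6 * d) ^ 1 := (pow_one _).symm
      _ ≤ (6 * d) ^ 73 := Nat.pow_le_pow_right (by omega) (by norm_num)
  have hdn : d ≤ Fintype.card (Fin (2 * n)) := by
    rw [Fintype.card_fin]
    omega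
  choose q hq using fun i => poly_order d (Fin (2 * n)) hdn (c i)
  have key := PP.main_all 5 (by norm_num) d hd (Fin (2 * n)) r q M
    (by rw [Fintype.card_fin]; exact h3d) (fun H h3 hF => by
      have h1 := h H h3 hF
      have h2 : ∀ i, poly d (c i) H = ∑ θ : Fin d ↪ Fin (2 * n), q i θ (pull θ H) := fun i => hq i H
      simp_rw [h2] at h1
      linarith)
  rw [Fintype.card_fin] at key
  have hd1 : (1 : ℝ) ≤ d := by exact_mod_cast hd
  have h6 : (6 : ℝ) ≤ 6 * (d : ℝ) := by linarith
  have hX1 : (1 : ℝ) ≤ (6 * (d : ℝ)) ^ 71 := one_le_pow₀ (by linarith)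
  have hYX : 36 * (6 * (d : ℝ)) ^ 71 ≤ (6 * (d : ℝ)) ^ 73 := by
    have e : (6 * (d : ℝ)) ^ 73 = (6 * (d : ℝ)) ^ 2 * (6 * (d : ℝ)) ^ 71 := by rw [← pow_add]
    rw [e]
    refine mul_le_mul_of_nonneg_right ?_ (by linarith)
    calc (36 : ℝ) = 6 ^ 2 := by norm_num
      _ ≤ (6 * (d : ℝ)) ^ 2 := pow_le_pow_left₀ (by norm_num) h6 2
  have hn' : (6 * (d : ℝ)) ^ 73 ≤ 2 * (n : ℝ) := by exact_mod_cast hn
  have hC : (((2 * n).choose 3 : ℕ) : ℝ) = (4 * (n : ℝ) ^ 3 - 6 * (n : ℝ) ^ 2 + 2 * n) / 3 := by
    have h3n : 3 ≤ 2 * n := le_trans (by omega) h3d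
    rw [NUM.choose_eq (2 * n) h3n]
    push_cast
    ring
  have key' : (3 / 4 + 1 / (16 * (6 * (d : ℝ)) ^ 71)) * (((2 * n).choose 3 : ℕ) : ℝ) ≤ M := by
    refine le_trans (le_of_eq ?_) key
    norm_num
  exact numeric _ _ _ _ _ hX1 hYX (le_trans hYX hn') hC key'

end Pool.Agent.Results.MP_555f9b_co.SumOfSquaresFive
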